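import Pool.Agent.R579.Universal

set_option autoImplicit false

namespace Pool.Agent.Results.MP_5c6457_an.EveryOrderingUniversal

open Pool.Agent.R579.Orbit

/-- Orderings of the Gabor system over the integers and over the naturals exist and every one of
them is universal. -/
theorem result :
    (Nonempty (ℤ ≃ ℤ × ℤ) ∧ ∀ σ : ℤ ≃ ℤ × ℤ, Universal (fun k : ℤ => k + 1) σ) ∧
    (Nonempty (ℕ ≃ ℤ × ℤ) ∧ ∀ σ : ℕ ≃ ℤ × ℤ, Universal (fun k : ℕ => k + 1) σ) :=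
  ⟨⟨⟨Denumerable.equiv₂ ℤ (ℤ × ℤ)⟩, universal_Z⟩, ⟨⟨Denumerable.equiv₂ ℕ (ℤ × ℤ)⟩, universal_N⟩⟩

end Pool.Agent.Results.MP_5c6457_an.EveryOrderingUniversal
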